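import Pool.Agent.Helper30.KC.GoalsI
import Pool.Agent.Helper12.KC.DG

/-!
# Project KI, packet DP: the complement of a patch
-/

set_option autoImplicit false

namespace Pool.Agent.Helper77.KI

open scoped Classical
open Finset
open Pool.Agent.Helper94.KC Pool.Agent.Helper30.KC
open Pool.Agent.Helper30.ML (Mac rs del StmtBR StmtMEY StmtD4 StmtSU)
open Pool.Agent.Helper12.KC (mem_hB core_conn)

/-- the complement of a patch -/
theorem pDP (hDW : StmtDW) (hBM : StmtBM) (hFW : StmtFW) (hBR : StmtBR) (hSU : StmtSU)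
    (hMEY : StmtMEY) : StmtDP := by
  intro V _ T ρ l hS hHD hEW x₀ w hw x hx i hi hdx hhub
  have h00 : i (0, 0) ∈ core i := by
    unfold core
    exact mem_image_of_mem _ ((mem_hB _ _).2 (by simp [hn]))
  have h10 : i (1, 0) ∈ core i := by
    unfold core
    exact mem_image_of_mem _ ((mem_hB _ _).2 (by simp [hn]))
  obtain ⟨R, W, hRW, hdis, hAll, hconU, hstk⟩ :=
    hDW V T hS (core i) ⟨_, h00⟩ (core_conn T i hi)
  have hx0 : i (0, 0) ∉ W := fun h => disjoint_left.mp hdis h h00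
  have hu0 : i (1, 0) ∉ W := fun h => disjoint_left.mp hdis h h10
  have hadj : (sk T).Adj (i (0, 0)) (i (1, 0)) :=
    (hi.nb (0, 0) (by simp [hn]) _).2 ⟨(1, 0), by simp [hn], rfl⟩
  have hbm := hBM V T hS W (i (0, 0)) (i (1, 0)) l hstk hx0 hu0 hadj
    (fun h h7 => by have := hhub h h7; omega)
  have hxW : ∀ y, (sk T).dist x y ≤ 1 → y ∉ W := fun y hy =>
    hbm y (by have := hS.conn.dist_triangle (u := i (0, 0)) (v := x) (w := y); omega)
  have hxh : ∀ h, 7 ≤ dg T h → 2 * ρ + 4 < (sk T).dist x h := fun h h7 => by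
    have h1 := hhub h h7
    have h2 := hS.conn.dist_triangle (u := i (0, 0)) (v := x) (w := h)
    omega
  have hfw := hFW V T W ρ hS hHD hEW hconU ⟨_, _, hx0, hu0, hadj⟩ hstk x₀ w hw x hx hxh hxW
  have hmacW : Mac (rs (sk T) (W : Set V)) := hBR V T hS W hfw
  have hmacR : Mac (rs (sk T) (R : Set V)) := by
    refine hSU V _ _ ?_ hmacW
    intro a b hab
    exact ⟨hab.1, hRW hab.2.1, hRW hab.2.2⟩
  exact hAll (hMEY V _ hmacR)

end Pool.Agent.Helper77.KI
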